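import Pool.Agent.H129.VT.Sm

set_option autoImplicit false

/-! Split tournaments are faithfully complete. -/

namespace Pool.Agent.H129.VT.SM

open Pool.Agent.W889.VC Pool.Agent.W889.SD

/-- the first order has no last element -/
def NoMax (y : PairStr) : Prop := ∀ m, ∃ k, y.1 m k = true

theorem target_NM : Target PIso (fun y => TwoLin y ∧ NoMax y) DL WL where
  symm := target_PL.symm
  mg := target_PL.mg
  mW := target_PL.mW
  inv := target_PL.inv
  iso := target_PL.iso
  iso' := target_PL.iso'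
  ex := target_PL.ex
  cls := by
    intro y hy hb
    refine ⟨target_PL.cls y hy hb, fun m => ?_⟩
    obtain ⟨h1, -, -, h2, -⟩ := hy
    rcases cases3 (DL y) m with h | h | h
    · obtain ⟨b, hb1, hb2⟩ := hb.dR.above m h
      exact ⟨b, ((h1.rr m b h hb1).2 hb2).1⟩
    · obtain ⟨b, hb1, hb2⟩ := hb.dC.above m h
      exact ⟨b, ((h1.cc m b h hb1).2 hb2).1⟩
    · obtain ⟨c, hc, -⟩ := hb.rC m h
      exact ⟨c, h2.pc m c h hc⟩

theorem faithful_NM : Faithful PIso (fun y => TwoLin y ∧ NoMax y) := target_NM.faithful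

/-- Interpretations and faithful completeness. -/
theorem faithful_int {Y Y0 : Type} [MeasurableSpace Y] [MeasurableSpace Y0]
    {E : Y → Y → Prop} {E0 : Y0 → Y0 → Prop} {K0 : Y0 → Prop}
    (hF : Faithful E0 K0) {W : Y → Prop} {δ : Y → Y0} (symm : ∀ y z, E y z → E z y)
    (symm0 : ∀ y z, E0 y z → E0 z y)
    (hW : BP W) (hδ : Measurable δ) (hi : ∀ y z, E y z → W y → W z)
    (h1 : ∀ y z, W y → W z → (E y z ↔ E0 (δ y) (δ z)))
    (h2 : ∀ x, K0 x → ∃ y, W y ∧ E0 (δ y) x) {K : Y → Prop} (hK : ∀ y, W y → K y) :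
    Faithful E K := by
  intro a B hB hinv
  obtain ⟨B', F, k1, k2, k3, k4, k5, k6, k7⟩ := hF a B hB hinv
  have hstep : ∀ y z, E y z → (W y ∧ δ y ∈ B') → (W z ∧ δ z ∈ B') := by
    rintro y z h ⟨h3, h4⟩
    have h5 := hi y z h h3
    exact ⟨h5, (k2 _ _ ((h1 y z h3 h5).1 h)).1 h4⟩
  refine ⟨{y | W y ∧ δ y ∈ B'}, fun y => F (δ y), MeasurableSet.inter hW (hδ k1),
    fun y z h => ⟨hstep y z h, hstep z y (symm _ _ h)⟩, fun y hy => hK y hy.1, k4.comp hδ,
    fun y hy => k5 _ hy.2, fun y hy z hz => ?_, fun x hx => ?_⟩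
  · rw [← k6 _ hy.2 _ hz.2]
    exact h1 y z hy.1 hz.1
  · obtain ⟨y0, h3, h4⟩ := k7 x hx
    obtain ⟨y, h5, h6⟩ := h2 y0 (k3 _ h3)
    have h7 : δ y ∈ B' := (k2 _ _ h6).2 h3
    exact ⟨y, ⟨h5, h7⟩, h4.trans ((k6 _ h3 _ h7).1 (symm0 _ _ h6))⟩

/-- the class -/
def W (y : BinStr) : Prop := SM (rel y)

theorem bp_MM (u v : ℕ) : BP (fun y : BinStr => MM (rel y) u v) :=
  (bp_atom u v).and (BP.all fun w => ((bp_atom u w).and (bp_atom w v)).not)

theorem bp_Lo (v : ℕ) : BP (fun y : BinStr => Lo (rel y) v) := BP.ex fun u => bp_MM u v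

theorem bp_Up (v : ℕ) : BP (fun y : BinStr => Up (rel y) v) := BP.ex fun u => bp_MM v u

theorem bp_A2 (u v : ℕ) : BP (fun y : BinStr => A2 (rel y) u v) :=
  BP.ex fun a => BP.ex fun b => (bp_MM a u).and ((bp_MM b v).and (bp_atom a b))

theorem bp_W : BP W := by
  have h : BP (fun y : BinStr => (∀ a, ¬ rel y a a) ∧
      (∀ a b, a ≠ b → rel y a b ∨ rel y b a) ∧ (∀ a b, rel y a b → ¬ rel y b a) ∧
      (∀ v, Lo (rel y) v ∨ Up (rel y) v) ∧ (∀ v, Lo (rel y) v → ¬ Up (rel y) v) ∧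
      (∀ u v v', MM (rel y) u v → MM (rel y) u v' → v = v') ∧
      (∀ u u' v, MM (rel y) u v → MM (rel y) u' v → u = u') ∧
      (∀ u v w, Lo (rel y) u → Lo (rel y) v → Lo (rel y) w → rel y u v → rel y v w → rel y u w) ∧
      (∀ u v w, Up (rel y) u → Up (rel y) v → Up (rel y) w → rel y u v → rel y v w → rel y u w) ∧
      (∀ u v, Lo (rel y) u → Up (rel y) v → MM (rel y) v u ∨ rel y u v)) :=
    (BP.all fun a => (bp_atom a a).not).and <|
    (BP.all fun a => BP.all fun b => (BP.const _).imp ((bp_atom a b).or (bp_atom b a))).and <|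
    (BP.all fun a => BP.all fun b => (bp_atom a b).imp (bp_atom b a).not).and <|
    (BP.all fun v => (bp_Lo v).or (bp_Up v)).and <|
    (BP.all fun v => (bp_Lo v).imp (bp_Up v).not).and <|
    (BP.all fun u => BP.all fun v => BP.all fun v' =>
      (bp_MM u v).imp <| (bp_MM u v').imp (BP.const _)).and <|
    (BP.all fun u => BP.all fun u' => BP.all fun v =>
      (bp_MM u v).imp <| (bp_MM u' v).imp (BP.const _)).and <|
    (BP.all fun u => BP.all fun v => BP.all fun w => (bp_Lo u).imp <| (bp_Lo v).imp <|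
      (bp_Lo w).imp <| (bp_atom u v).imp <| (bp_atom v w).imp (bp_atom u w)).and <|
    (BP.all fun u => BP.all fun v => BP.all fun w => (bp_Up u).imp <| (bp_Up v).imp <|
      (bp_Up w).imp <| (bp_atom u v).imp <| (bp_atom v w).imp (bp_atom u w)).and <|
    BP.all fun u => BP.all fun v => (bp_Lo u).imp <| (bp_Up v).imp
      ((bp_MM v u).or (bp_atom u v))
  exact h.congr fun y => ⟨fun ⟨a, b, c, d, e, f, g, h, i, j⟩ => ⟨a, b, c, d, e, f, g, h, i, j⟩,
    fun h => ⟨h.irr, h.tot, h.asy, h.cov, h.dis, h.fn, h.inj, h.lo, h.up, h.cr⟩⟩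

/-- decoding -/
noncomputable def δ (y : BinStr) : PairStr :=
  (dc (fun y => Lo (rel y)) (fun y => rel y) y, dc (fun y => Lo (rel y)) (fun y => A2 (rel y)) y)

theorem measurable_δ : Measurable δ :=
  (measurable_dc (fun u => bp_Lo u) (fun u v => bp_atom u v)).prodMk
    (measurable_dc (fun u => bp_Lo u) (fun u v => bp_A2 u v))

/-- the enumeration of the lower points -/
theorem δ_enum {y : BinStr} (hy : W y) : ∃ e : ℕ ≃ {u // Lo (rel y) u}, ∀ m n,
    ((δ y).1 m n = true ↔ rel y (e m) (e n)) ∧ ((δ y).2 m n = true ↔ A2 (rel y) (e m) (e n)) := by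
  obtain ⟨e, he⟩ := nth_equiv (SM.inf hy)
  refine ⟨e, fun m n => ⟨?_, ?_⟩⟩
  · simp [δ, dc, ind_iff he]
  · simp [δ, dc, ind_iff he]

theorem faithful_W : Faithful BIso W := by
  refine faithful_int faithful_NM (W := W) (δ := δ) (fun _ _ h => h.symm)
    (fun _ _ h => h.symm) bp_W measurable_δ ?_ ?_ ?_ (fun _ h => h)
  · rintro y z ⟨σ, h⟩ hy
    refine SM.map σ.symm (fun u v => ?_) hy
    have := h (σ.symm u) (σ.symm v)
    rw [σ.apply_symm_apply, σ.apply_symm_apply] at this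
    show z u v = true ↔ y _ _ = true
    rw [this]
  · intro y z hy hz
    obtain ⟨e, he⟩ := δ_enum hy
    obtain ⟨f, hf⟩ := δ_enum hz
    constructor
    · rintro ⟨σ, h⟩
      have hr : ∀ u v, rel y u v ↔ rel z (σ u) (σ v) := fun u v => by
        show y u v = true ↔ z _ _ = true
        rw [h]
      let π : {u // Lo (rel y) u} ≃ {u // Lo (rel z) u} :=
        σ.subtypeEquiv fun u => Lo_map σ hr u
      refine ⟨(e.trans π).trans f.symm, fun m n => ⟨?_, ?_⟩⟩
      · rw [Bool.eq_iff_iff, (hf _ _).1, (he _ _).1, hr]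
        simp [π]
      · rw [Bool.eq_iff_iff, (hf _ _).2, (he _ _).2, A2_map σ hr]
        simp [π]
    · rintro ⟨σ, h⟩
      have hA : ∀ u v : {u // Lo (rel y) u}, rel y u v ↔
          rel z (((e.symm.trans σ).trans f) u) (((e.symm.trans σ).trans f) v) := by
        intro u v
        have h3 := (h (e.symm u) (e.symm v)).1
        rw [Bool.eq_iff_iff, (he _ _).1, (hf _ _).1] at h3
        simp only [Equiv.apply_symm_apply] at h3
        exact h3.symm
      have hB : ∀ u v : {u // Lo (rel y) u}, A2 (rel y) u v ↔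
          A2 (rel z) (((e.symm.trans σ).trans f) u) (((e.symm.trans σ).trans f) v) := by
        intro u v
        have h3 := (h (e.symm u) (e.symm v)).2
        rw [Bool.eq_iff_iff, (he _ _).2, (hf _ _).2] at h3
        simp only [Equiv.apply_symm_apply] at h3
        exact h3.symm
      obtain ⟨g, hg⟩ := SM.glue hy hz ((e.symm.trans σ).trans f) hA hB
      exact ⟨g, fun m n => by rw [Bool.eq_iff_iff]; exact (hg m n).symm⟩
  · classical
    rintro x ⟨⟨h1, h2⟩, hm⟩
    let T := TR (fun m n => x.1 m n = true) (fun m n => x.2 m n = true)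
    have hT : SM T := SM_TR h1 h2 hm
    obtain ⟨g⟩ : Nonempty (ℕ ≃ ℕ × Bool) := nonempty_equiv_of_countable
    let y : BinStr := fun u v => decide (T (g u) (g v))
    have hr : ∀ u v, rel y u v ↔ T (g u) (g v) := fun u v => by
      show decide _ = true ↔ _
      simp
    have hy : W y := SM.map g hr hT
    obtain ⟨e, he⟩ := δ_enum hy
    have hl : ∀ u, Lo (rel y) u ↔ (g u).2 = false := fun u => by
      rw [Lo_map g hr, Lo_TR h1 h2 hm]
    let π : {u // Lo (rel y) u} ≃ ℕ :=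
      { toFun := fun u => (g u).1
        invFun := fun m => ⟨g.symm (m, false), (hl _).2 (by rw [g.apply_symm_apply])⟩
        left_inv := fun u => by
          apply Subtype.ext
          show g.symm ((g u).1, false) = u
          rw [← (hl u).1 u.2]
          exact g.symm_apply_apply _
        right_inv := fun m => by
          show (g (g.symm (m, false))).1 = m
          rw [g.apply_symm_apply] }
    have hπ : ∀ u : {u // Lo (rel y) u}, g u = (π u, false) := fun u =>
      Prod.ext rfl ((hl u).1 u.2)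
    refine ⟨y, hy, e.trans π, fun m n => ⟨?_, ?_⟩⟩
    · rw [Bool.eq_iff_iff, (he _ _).1, hr, hπ, hπ]
      exact Iff.rfl
    · rw [Bool.eq_iff_iff, (he _ _).2, A2_map g hr, hπ, hπ]
      constructor
      · intro h3
        exact ⟨(π (e m), true), (π (e n), true), (MM_TR h1 h2 hm _ _).2 ⟨rfl, rfl, rfl⟩,
          (MM_TR h1 h2 hm _ _).2 ⟨rfl, rfl, rfl⟩, h3⟩
      · rintro ⟨⟨a, c⟩, ⟨b, d⟩, k1, k2, k3⟩
        obtain ⟨k4, -, k5⟩ := (MM_TR h1 h2 hm _ _).1 k1
        obtain ⟨l4, -, l5⟩ := (MM_TR h1 h2 hm _ _).1 k2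
        simp only at k4 k5 l4 l5
        subst k4 k5 l4 l5
        exact k3

end Pool.Agent.H129.VT.SM
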