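import Mathlib

set_option autoImplicit false

/-! Prime tournaments without one of the tournaments with four vertices. -/

namespace Pool.Agent.H129.VT

/-- tournaments -/
structure Tour (E : ℕ → ℕ → Bool) : Prop where
  irr : ∀ a, E a a = false
  tot : ∀ a b, a ≠ b → E a b = true ∨ E b a = true
  asy : ∀ a b, E a b = true → E b a = true → False

/-- no point outside `X` distinguishes the points of `X` -/
def Modu (E : ℕ → ℕ → Bool) (X : Set ℕ) : Prop :=
  ∀ u, u ∉ X → ∀ v ∈ X, ∀ w ∈ X, E u v = E u w ∧ E v u = E w u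

def Pri (E : ℕ → ℕ → Bool) : Prop := ∀ X : Set ℕ, Modu E X → X.Subsingleton ∨ X = Set.univ

structure Loc (T : ℕ → ℕ → Bool) : Prop where
  out : ∀ x a b c, T x a = true → T x b = true → T x c = true → T a b = true → T b c = true →
    T a c = true
  inn : ∀ x a b c, T a x = true → T b x = true → T c x = true → T a b = true → T b c = true →
    T a c = true

variable {Q : ℕ → ℕ → Bool}

theorem Tour.ne (h : Tour Q) {a b : ℕ} (hab : Q a b = true) : a ≠ b := by
  rintro rfl
  rw [h.irr] at hab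
  exact absurd hab (by decide)

theorem Tour.cyc (h : Tour Q) {a b c : ℕ} (hab : Q a b = true) (hbc : Q b c = true)
    (hac : ¬ Q a c = true) : Q c a = true := by
  have hne : a ≠ c := by
    rintro rfl
    exact h.asy _ _ hab hbc
  exact (h.tot a c hne).resolve_left hac

theorem Tour.mod_of (h : Tour Q) {K : Set ℕ}
    (hK : ∀ u, u ∉ K → ∀ v ∈ K, ∀ w ∈ K, Q u v = true → Q u w = true) : Modu Q K := by
  intro u hu v hv w hw
  have h1 : Q u v = Q u w := by
    rw [Bool.eq_iff_iff]
    exact ⟨hK u hu v hv w hw, hK u hu w hw v hv⟩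
  have hf : ∀ x ∈ K, (Q x u = true ↔ ¬ Q u x = true) := by
    intro x hx
    have hne : x ≠ u := fun e => hu (e ▸ hx)
    constructor
    · exact fun h2 h3 => h.asy _ _ h2 h3
    · exact fun h2 => (h.tot x u hne).resolve_right h2
  refine ⟨h1, ?_⟩
  rw [Bool.eq_iff_iff, hf v hv, hf w hw, h1]

/-- the cycles are in a common in-neighbourhood only in a proper module -/
theorem loc_noW (h : Tour Q) (hp : Pri Q)
    (hW : ∀ v a b c, Q v a = true → Q v b = true → Q v c = true → Q a b = true → Q b c = true →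
      Q c a = true → False) : Loc Q := by
  refine ⟨fun x a b c h1 h2 h3 h4 h5 => ?_, fun x a b c h1 h2 h3 h4 h5 => ?_⟩
  · by_contra h6
    exact hW x a b c h1 h2 h3 h4 h5 (h.cyc h4 h5 h6)
  · by_contra h6
    have h7 := h.cyc h4 h5 h6
    let st : ℕ → ℕ → Prop := fun u w => Q u w = true ∧ Q u x = true ∧ Q w x = true
    let R := Relation.ReflTransGen st
    have hR : ∀ {u w}, Q u x = true → R u w → Q w x = true := by
      intro u w hu huw
      rcases Relation.ReflTransGen.cases_tail huw with e | ⟨z, -, hz⟩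
      · rw [e]
        exact hu
      · exact hz.2.2
    let K : Set ℕ := {w | R a w ∧ R w a}
    have haK : a ∈ K := ⟨Relation.ReflTransGen.refl, Relation.ReflTransGen.refl⟩
    have hbK : b ∈ K := ⟨Relation.ReflTransGen.single ⟨h4, h1, h2⟩,
      Relation.ReflTransGen.head ⟨h5, h2, h3⟩ (Relation.ReflTransGen.single ⟨h7, h3, h1⟩)⟩
    have hKx : ∀ w ∈ K, Q w x = true := fun w hw => hR h1 hw.1
    have hxK : x ∉ K := fun hx => h.ne (hKx x hx) rfl
    have hm : Modu Q K := by
      refine h.mod_of fun u hu v hv w hw huv => ?_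
      by_contra huw
      have hwu : Q w u = true := by
        refine (h.tot w u ?_).resolve_right huw
        rintro rfl
        exact hu hw
      by_cases hux : u = x
      · subst hux
        exact h.asy _ _ huv (hKx v hv)
      rcases h.tot u x hux with h8 | h8
      · refine hu ⟨?_, ?_⟩
        · exact hw.1.tail ⟨hwu, hKx w hw, h8⟩
        · exact Relation.ReflTransGen.head ⟨huv, h8, hKx v hv⟩ hv.2
      · have key : ∀ w', R w w' → Q w' u = true := by
          intro w' hw'
          induction hw' with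
          | refl => exact hwu
          | @tail p q hp hpq ih =>
            by_contra h9
            have hqu : q ≠ u := by
              rintro rfl
              exact h.asy _ _ hpq.2.2 h8
            have h10 : Q u q = true := (h.tot q u hqu).resolve_left h9
            exact hW p x u q hpq.2.1 ih hpq.1 h8 h10 hpq.2.2
        exact h.asy _ _ huv (key v (hw.2.trans hv.1))
    rcases hp K hm with h8 | h8
    · exact h.ne h4 (h8 haK hbK)
    · exact hxK (h8 ▸ Set.mem_univ x)

theorem Tour.rev (h : Tour Q) : Tour (fun a b => Q b a) :=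
  ⟨fun a => h.irr a, fun a b hab => h.tot b a hab.symm, fun _ _ h1 h2 => h.asy _ _ h2 h1⟩

theorem Pri.rev (h : Pri Q) : Pri (fun a b => Q b a) := fun X hX =>
  h X fun u hu v hv w hw => ⟨(hX u hu v hv w hw).2, (hX u hu v hv w hw).1⟩

theorem Loc.rev (h : Loc (fun a b => Q b a)) : Loc Q :=
  ⟨fun x a b c h1 h2 h3 h4 h5 => h.inn x c b a h3 h2 h1 h5 h4,
    fun x a b c h1 h2 h3 h4 h5 => h.out x c b a h3 h2 h1 h5 h4⟩

theorem loc_noL (h : Tour Q) (hp : Pri Q)
    (hL : ∀ v a b c, Q a v = true → Q b v = true → Q c v = true → Q a b = true → Q b c = true →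
      Q c a = true → False) : Loc Q :=
  (loc_noW h.rev hp.rev fun v a b c h1 h2 h3 h4 h5 h6 => hL v a c b h1 h3 h2 h6 h5 h4).rev

theorem loc_of_acyclic (h : Tour Q)
    (h3 : ∀ a b c, Q a b = true → Q b c = true → Q c a = true → False) : Loc Q :=
  ⟨fun x a b c _ _ _ h4 h5 => by
    by_contra h6
    exact h3 a b c h4 h5 (h.cyc h4 h5 h6), fun x a b c _ _ _ h4 h5 => by
    by_contra h6
    exact h3 a b c h4 h5 (h.cyc h4 h5 h6)⟩

/-- a vertex that distinguishes the vertices of a cyclic triangle gives a cycle of length four -/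
theorem four_cycle (h : Tour Q)
    (h4 : ∀ a b c d, Q a b = true → Q b c = true → Q c d = true → Q d a = true → False)
    {a b c u : ℕ} (hab : Q a b = true) (hbc : Q b c = true) (hca : Q c a = true)
    (hub : u ≠ b) (huc : u ≠ c) (h1 : Q u a = true) : Q u b = true ∧ Q u c = true := by
  rcases h.tot u b hub with k1 | k1 <;> rcases h.tot u c huc with k2 | k2
  · exact ⟨k1, k2⟩
  · exact (h4 c u a b k2 h1 hab hbc).elim
  · exact (h4 b u c a k1 k2 hca hab).elim
  · exact (h4 c u a b k2 h1 hab hbc).elim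

theorem loc_no4 (h : Tour Q) (hp : Pri Q)
    (h4 : ∀ a b c d, Q a b = true → Q b c = true → Q c d = true → Q d a = true → False) :
    Loc Q := by
  refine loc_of_acyclic h fun a b c hab hbc hca => ?_
  let K : Set ℕ := {a, b, c}
  have hm : Modu Q K := by
    refine h.mod_of fun u hu v hv w hw huv => ?_
    have hu' : u ≠ a ∧ u ≠ b ∧ u ≠ c := by
      simp only [K, Set.mem_insert_iff, Set.mem_singleton_iff, not_or] at hu
      exact hu
    obtain ⟨n1, n2, n3⟩ := hu'
    have key : Q u a = true ∧ Q u b = true ∧ Q u c = true := by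
      simp only [K, Set.mem_insert_iff, Set.mem_singleton_iff] at hv
      rcases hv with rfl | rfl | rfl
      · obtain ⟨k1, k2⟩ := four_cycle h h4 hab hbc hca n2 n3 huv
        exact ⟨huv, k1, k2⟩
      · obtain ⟨k1, k2⟩ := four_cycle h h4 hbc hca hab n3 n1 huv
        exact ⟨k2, huv, k1⟩
      · obtain ⟨k1, k2⟩ := four_cycle h h4 hca hab hbc n1 n2 huv
        exact ⟨k1, k2, huv⟩
    simp only [K, Set.mem_insert_iff, Set.mem_singleton_iff] at hw
    rcases hw with rfl | rfl | rfl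
    · exact key.1
    · exact key.2.1
    · exact key.2.2
  rcases hp K hm with h8 | h8
  · exact h.ne hab (h8 (by simp [K]) (by simp [K]))
  · have hf : (K : Set ℕ).Finite := by
      simp only [K]
      exact Set.toFinite _
    rw [h8] at hf
    exact Set.infinite_univ hf

/-- infinite tournaments contain transitive ones -/
theorem Tour.uniform (h : Tour Q) {S : Set ℕ} (hS : S.Infinite) : ∃ v ∈ S, ∃ S' ⊆ S,
    S'.Infinite ∧ ((∀ w ∈ S', Q v w = true) ∨ ∀ w ∈ S', Q w v = true) := by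
  obtain ⟨v, hv⟩ := hS.nonempty
  have h1 : (S \ {v}) = {w ∈ S | Q v w = true} ∪ {w ∈ S | Q w v = true} := by
    ext w
    constructor
    · rintro ⟨hw, hwv⟩
      rcases h.tot v w (fun e => hwv e.symm) with k | k
      · exact Or.inl ⟨hw, k⟩
      · exact Or.inr ⟨hw, k⟩
    · rintro (⟨hw, k⟩ | ⟨hw, k⟩)
      · exact ⟨hw, fun e => h.ne k (Set.mem_singleton_iff.1 e).symm⟩
      · exact ⟨hw, fun e => h.ne k (Set.mem_singleton_iff.1 e)⟩
  have h2 : (S \ {v}).Infinite := hS.sdiff (Set.finite_singleton v)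
  rw [h1] at h2
  rcases Set.infinite_union.1 h2 with h3 | h3
  · exact ⟨v, hv, _, fun w hw => hw.1, h3, Or.inl fun w hw => hw.2⟩
  · exact ⟨v, hv, _, fun w hw => hw.1, h3, Or.inr fun w hw => hw.2⟩

theorem Tour.trans4 (h : Tour Q)
    (h4 : ∀ a b c d, Q a b = true → Q a c = true → Q a d = true → Q b c = true → Q b d = true →
      Q c d = true → False) : False := by
  obtain ⟨a, -, A, -, hA, ha⟩ := h.uniform Set.infinite_univ
  obtain ⟨b, hb, B, hBA, hB, hb'⟩ := h.uniform hA
  obtain ⟨c, hc, C, hCB, hC, hc'⟩ := h.uniform hB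
  obtain ⟨d, hd⟩ := hC.nonempty
  have hd1 := hCB hd
  have hd2 := hBA hd1
  have hc1 := hBA hc
  rcases ha with ha | ha <;> rcases hb' with hb' | hb' <;> rcases hc' with hc' | hc'
  · exact h4 a b c d (ha _ hb) (ha _ hc1) (ha _ hd2) (hb' _ hc) (hb' _ hd1) (hc' _ hd)
  · exact h4 a b d c (ha _ hb) (ha _ hd2) (ha _ hc1) (hb' _ hd1) (hb' _ hc) (hc' _ hd)
  · exact h4 a c d b (ha _ hc1) (ha _ hd2) (ha _ hb) (hc' _ hd) (hb' _ hc) (hb' _ hd1)
  · exact h4 a d c b (ha _ hd2) (ha _ hc1) (ha _ hb) (hc' _ hd) (hb' _ hd1) (hb' _ hc)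
  · exact h4 b c d a (hb' _ hc) (hb' _ hd1) (ha _ hb) (hc' _ hd) (ha _ hc1) (ha _ hd2)
  · exact h4 b d c a (hb' _ hd1) (hb' _ hc) (ha _ hb) (hc' _ hd) (ha _ hd2) (ha _ hc1)
  · exact h4 c d b a (hc' _ hd) (hb' _ hc) (ha _ hc1) (hb' _ hd1) (ha _ hd2) (ha _ hb)
  · exact h4 d c b a (hc' _ hd) (hb' _ hd1) (ha _ hd2) (hb' _ hc) (ha _ hc1) (ha _ hb)

/-! ### the tournaments with four vertices -/

/-- a dominating vertex and a cycle, a dominated vertex and a cycle, the strong tournament, the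
transitive tournament -/
def pat : Fin 4 → Fin 4 → Fin 4 → Bool
  | 0 => ![![false, true, true, true], ![false, false, true, false],
      ![false, false, false, true], ![false, true, false, false]]
  | 1 => ![![false, false, false, false], ![true, false, true, false],
      ![true, false, false, true], ![true, true, false, false]]
  | 2 => ![![false, true, true, false], ![false, false, true, true],
      ![false, false, false, true], ![true, false, false, false]]
  | 3 => ![![false, true, true, true], ![false, false, true, true],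
      ![false, false, false, true], ![false, false, false, false]]

def mk4 (b01 b02 b03 b12 b13 b23 : Bool) : Fin 4 → Fin 4 → Bool :=
  ![![false, b01, b02, b03], ![!b01, false, b12, b13], ![!b02, !b12, false, b23],
    ![!b03, !b13, !b23, false]]

theorem four_iso (b01 b02 b03 b12 b13 b23 : Bool) : ∃ (k : Fin 4) (s : Fin 4 → Fin 4),
    ∀ i j, mk4 b01 b02 b03 b12 b13 b23 i j = pat k (s i) (s j) := by
  cases b01 <;> cases b02 <;> cases b03 <;> cases b12 <;> cases b13 <;> cases b23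
  · exact ⟨3, ![3, 2, 1, 0], by decide⟩
  · exact ⟨3, ![3, 2, 0, 1], by decide⟩
  · exact ⟨1, ![0, 1, 3, 2], by decide⟩
  · exact ⟨3, ![3, 1, 0, 2], by decide⟩
  · exact ⟨3, ![3, 1, 2, 0], by decide⟩
  · exact ⟨1, ![0, 1, 2, 3], by decide⟩
  · exact ⟨3, ![3, 0, 2, 1], by decide⟩
  · exact ⟨3, ![3, 0, 1, 2], by decide⟩
  · exact ⟨2, ![3, 2, 1, 0], by decide⟩
  · exact ⟨0, ![1, 3, 0, 2], by decide⟩
  · exact ⟨2, ![2, 1, 0, 3], by decide⟩
  · exact ⟨3, ![2, 1, 0, 3], by decide⟩
  · exact ⟨2, ![3, 1, 2, 0], by decide⟩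
  · exact ⟨2, ![2, 0, 1, 3], by decide⟩
  · exact ⟨0, ![1, 0, 3, 2], by decide⟩
  · exact ⟨3, ![2, 0, 1, 3], by decide⟩
  · exact ⟨0, ![1, 3, 2, 0], by decide⟩
  · exact ⟨2, ![3, 2, 0, 1], by decide⟩
  · exact ⟨2, ![2, 0, 3, 1], by decide⟩
  · exact ⟨2, ![3, 1, 0, 2], by decide⟩
  · exact ⟨3, ![2, 1, 3, 0], by decide⟩
  · exact ⟨2, ![2, 1, 3, 0], by decide⟩
  · exact ⟨3, ![2, 0, 3, 1], by decide⟩
  · exact ⟨0, ![1, 0, 2, 3], by decide⟩
  · exact ⟨2, ![0, 3, 2, 1], by decide⟩
  · exact ⟨2, ![0, 3, 1, 2], by decide⟩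
  · exact ⟨2, ![1, 0, 3, 2], by decide⟩
  · exact ⟨1, ![1, 3, 2, 0], by decide⟩
  · exact ⟨1, ![1, 3, 0, 2], by decide⟩
  · exact ⟨2, ![1, 0, 2, 3], by decide⟩
  · exact ⟨3, ![1, 0, 3, 2], by decide⟩
  · exact ⟨3, ![1, 0, 2, 3], by decide⟩
  · exact ⟨3, ![2, 3, 1, 0], by decide⟩
  · exact ⟨3, ![2, 3, 0, 1], by decide⟩
  · exact ⟨2, ![2, 3, 1, 0], by decide⟩
  · exact ⟨0, ![1, 2, 0, 3], by decide⟩
  · exact ⟨0, ![1, 2, 3, 0], by decide⟩
  · exact ⟨2, ![2, 3, 0, 1], by decide⟩
  · exact ⟨2, ![3, 0, 2, 1], by decide⟩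
  · exact ⟨2, ![3, 0, 1, 2], by decide⟩
  · exact ⟨1, ![1, 0, 3, 2], by decide⟩
  · exact ⟨3, ![1, 3, 0, 2], by decide⟩
  · exact ⟨2, ![1, 2, 0, 3], by decide⟩
  · exact ⟨3, ![1, 2, 0, 3], by decide⟩
  · exact ⟨2, ![0, 2, 3, 1], by decide⟩
  · exact ⟨2, ![1, 3, 0, 2], by decide⟩
  · exact ⟨2, ![0, 1, 3, 2], by decide⟩
  · exact ⟨1, ![1, 2, 3, 0], by decide⟩
  · exact ⟨3, ![1, 3, 2, 0], by decide⟩
  · exact ⟨1, ![1, 0, 2, 3], by decide⟩
  · exact ⟨2, ![1, 3, 2, 0], by decide⟩
  · exact ⟨2, ![0, 2, 1, 3], by decide⟩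
  · exact ⟨3, ![1, 2, 3, 0], by decide⟩
  · exact ⟨2, ![1, 2, 3, 0], by decide⟩
  · exact ⟨1, ![1, 2, 0, 3], by decide⟩
  · exact ⟨2, ![0, 1, 2, 3], by decide⟩
  · exact ⟨3, ![0, 3, 2, 1], by decide⟩
  · exact ⟨3, ![0, 3, 1, 2], by decide⟩
  · exact ⟨0, ![0, 1, 3, 2], by decide⟩
  · exact ⟨3, ![0, 2, 1, 3], by decide⟩
  · exact ⟨3, ![0, 2, 3, 1], by decide⟩
  · exact ⟨0, ![0, 1, 2, 3], by decide⟩
  · exact ⟨3, ![0, 1, 3, 2], by decide⟩
  · exact ⟨3, ![0, 1, 2, 3], by decide⟩

/-- tournaments on `Fin n` -/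
structure FT {n : ℕ} (T : Fin n → Fin n → Bool) : Prop where
  irr : ∀ i, T i i = false
  flip : ∀ i j, i ≠ j → T j i = !T i j

theorem mk4_of {T : Fin 4 → Fin 4 → Bool} (h : FT T) :
    T = mk4 (T 0 1) (T 0 2) (T 0 3) (T 1 2) (T 1 3) (T 2 3) := by
  funext i j
  fin_cases i <;> fin_cases j
  · exact h.irr 0
  · rfl
  · rfl
  · rfl
  · exact h.flip 0 1 (by decide)
  · exact h.irr 1
  · rfl
  · rfl
  · exact h.flip 0 2 (by decide)
  · exact h.flip 1 2 (by decide)
  · exact h.irr 2
  · rfl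
  · exact h.flip 0 3 (by decide)
  · exact h.flip 1 3 (by decide)
  · exact h.flip 2 3 (by decide)
  · exact h.irr 3

/-- `E` contains the tournament `T` -/
def Has {n : ℕ} (T : Fin n → Fin n → Bool) (E : ℕ → ℕ → Bool) : Prop :=
  ∃ f : Fin n → ℕ, Function.Injective f ∧ ∀ i j, E (f i) (f j) = T i j

theorem has_of {n : ℕ} {T : Fin n → Fin n → Bool} (hT : FT T) {E : ℕ → ℕ → Bool}
    {f : Fin n → ℕ} (hf : ∀ i j, E (f i) (f j) = T i j) : Has T E := by
  refine ⟨f, fun i j hij => ?_, hf⟩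
  by_contra hne
  have h1 := hf i j
  have h2 := hf j i
  rw [hij] at h1 h2
  rw [h1, hT.flip i j hne] at h2
  revert h2
  cases T i j <;> decide

theorem Tour.row (h : Tour Q) {a b : ℕ} (hab : Q a b = true) : Q b a = false := by
  rcases hb : Q b a with _ | _
  · rfl
  · exact (h.asy _ _ hab hb).elim

theorem loc_four {T : Fin 4 → Fin 4 → Bool} (hT : FT T) (h : Tour Q) (hp : Pri Q)
    (hn : ¬ Has T Q) : Loc Q := by
  obtain ⟨k, s, hs⟩ := four_iso (T 0 1) (T 0 2) (T 0 3) (T 1 2) (T 1 3) (T 2 3)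
  rw [← mk4_of hT] at hs
  have key : ∀ f : Fin 4 → ℕ, (∀ i j, Q (f i) (f j) = pat k i j) → False := fun f hf =>
    hn (has_of hT (f := fun i => f (s i)) fun i j => by rw [hf, hs])
  have hk : ∀ k : Fin 4, k = 0 ∨ k = 1 ∨ k = 2 ∨ k = 3 := by decide
  rcases hk k with rfl | rfl | rfl | rfl
  · refine loc_noW h hp fun v a b c h1 h2 h3 h4 h5 h6 => key ![v, a, b, c] fun i j => ?_
    have e1 := h.row h1
    have e2 := h.row h2
    have e3 := h.row h3
    have e4 := h.row h4
    have e5 := h.row h5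
    have e6 := h.row h6
    fin_cases i <;> fin_cases j <;>
      first
        | exact h.irr _
        | assumption
  · refine loc_noL h hp fun v a b c h1 h2 h3 h4 h5 h6 => key ![v, a, b, c] fun i j => ?_
    have e1 := h.row h1
    have e2 := h.row h2
    have e3 := h.row h3
    have e4 := h.row h4
    have e5 := h.row h5
    have e6 := h.row h6
    fin_cases i <;> fin_cases j <;>
      first
        | exact h.irr _
        | assumption
  · have base : ∀ a b c d, Q a b = true → Q b c = true → Q c d = true → Q d a = true →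
        Q a c = true → Q b d = true → False := by
      intro a b c d h1 h2 h3 h4 h5 h6
      refine key ![a, b, c, d] fun i j => ?_
      have e1 := h.row h1
      have e2 := h.row h2
      have e3 := h.row h3
      have e4 := h.row h4
      have e5 := h.row h5
      have e6 := h.row h6
      fin_cases i <;> fin_cases j <;>
        first
          | exact h.irr _
          | assumption
    refine loc_no4 h hp fun a b c d h1 h2 h3 h4 => ?_
    have n1 : a ≠ c := by
      rintro rfl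
      exact h.asy _ _ h1 h2
    have n2 : b ≠ d := by
      rintro rfl
      exact h.asy _ _ h2 h3
    rcases h.tot a c n1 with h5 | h5 <;> rcases h.tot b d n2 with h6 | h6
    · exact base a b c d h1 h2 h3 h4 h5 h6
    · exact base d a b c h4 h1 h2 h3 h6 h5
    · exact base b c d a h2 h3 h4 h1 h6 h5
    · exact base c d a b h3 h4 h1 h2 h5 h6
  · exfalso
    refine h.trans4 fun a b c d h1 h2 h3 h4 h5 h6 => key ![a, b, c, d] fun i j => ?_
    have e1 := h.row h1
    have e2 := h.row h2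
    have e3 := h.row h3
    have e4 := h.row h4
    have e5 := h.row h5
    have e6 := h.row h6
    fin_cases i <;> fin_cases j <;>
      first
        | exact h.irr _
        | assumption

/-- completion to four vertices -/
def ext4 {n : ℕ} (T : Fin n → Fin n → Bool) (i j : Fin 4) : Bool :=
  if h : (i : ℕ) < n ∧ (j : ℕ) < n then T ⟨i, h.1⟩ ⟨j, h.2⟩ else decide (i < j)

theorem ft_ext4 {n : ℕ} {T : Fin n → Fin n → Bool} (hT : FT T) : FT (ext4 T) := by
  refine ⟨fun i => ?_, fun i j hij => ?_⟩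
  · unfold ext4
    split_ifs with h
    · exact hT.irr _
    · simp
  · unfold ext4
    by_cases h : (i : ℕ) < n ∧ (j : ℕ) < n
    · rw [dif_pos h, dif_pos h.symm]
      exact hT.flip _ _ fun e => hij (Fin.ext (Fin.mk.inj_iff.1 e))
    · rw [dif_neg h, dif_neg fun k => h k.symm]
      rcases lt_or_gt_of_ne hij with k | k
      · simp [k, not_lt.2 k.le]
      · simp [k, not_lt.2 k.le]

theorem loc_le {n : ℕ} (hn : n ≤ 4) {T : Fin n → Fin n → Bool} (hT : FT T) (h : Tour Q)
    (hp : Pri Q) (hh : ¬ Has T Q) : Loc Q := by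
  refine loc_four (ft_ext4 hT) h hp fun ⟨f, hf, hf'⟩ => hh ?_
  refine ⟨fun i => f (Fin.castLE hn i), fun i j hij => Fin.castLE_injective hn (hf hij),
    fun i j => ?_⟩
  rw [hf']
  unfold ext4
  rw [dif_pos ⟨i.2, j.2⟩]
  rfl

end Pool.Agent.H129.VT
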