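import Pool.Agent.TH686.DO.Inv2

set_option autoImplicit false

/-! Tournaments which are dense linear orders with the arcs of a perfect matching reversed. -/

namespace Pool.Agent.H129.VT

open FirstOrder FirstOrder.Language
open Pool.Agent.W889.FO Pool.Agent.W889.VC
open Pool.Agent.W889.FO.StA (FD.all1 FD.ex1)
open Pool.Agent.W889.FO.StE (LG gd fd_gd siso_gd)
open Pool.Agent.TH686.FO Pool.Agent.TH686.DO

/-- a path of length two from `u` to `v` -/
def mid (t : ℕ → ℕ → Prop) (u v : ℕ) : Prop := ∃ z, t u z ∧ t z v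

/-- the decoded order -/
def rr (t : ℕ → ℕ → Prop) (u v : ℕ) : Prop := (t u v ∧ mid t u v) ∨ (t v u ∧ ¬ mid t v u)

/-- the decoded matching -/
def em (t : ℕ → ℕ → Prop) (u v : ℕ) : Prop := (t u v ∧ ¬ mid t u v) ∨ (t v u ∧ ¬ mid t v u)

/-- the tournament -/
def tt (r e : ℕ → ℕ → Prop) (u v : ℕ) : Prop := (r u v ∧ ¬ e u v) ∨ (r v u ∧ e u v)

/-- dense linear orders with a perfect matching of an initial segment with its complement -/
structure IV (r e : ℕ → ℕ → Prop) : Prop where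
  o : SLO r
  dn : ∀ u v, r u v → ∃ w, r u w ∧ r w v
  ab : ∀ u, ∃ w, r u w
  be : ∀ u, ∃ w, r w u
  sy : ∀ u v, e u v → e v u
  ir : ∀ u, ¬ e u u
  fn : ∀ u v w, e u v → e u w → v = w
  tot : ∀ u, ∃ v, e u v
  cut : ∀ u u' v v', e u u' → e v v' → r u u' → r v v' → r u v'

theorem iw_iff {S : L2.Structure ℕ} : IW S ↔ IV (g1 S) (g2 S) :=
  ⟨fun ⟨a, b, c, d, e, f, g, h, i⟩ => ⟨a, b, c, d, e, f, g, h, i⟩,
    fun ⟨a, b, c, d, e, f, g, h, i⟩ => ⟨a, b, c, d, e, f, g, h, i⟩⟩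

variable {r e : ℕ → ℕ → Prop}

theorem IV.asym (h : IV r e) {u v : ℕ} (h1 : r u v) (h2 : r v u) : False :=
  h.o.irrefl _ (h.o.trans _ _ _ h1 h2)

theorem IV.tt_irr (h : IV r e) (u : ℕ) : ¬ tt r e u u := by
  rintro (⟨h1, -⟩ | ⟨h1, -⟩) <;> exact h.o.irrefl _ h1

theorem IV.tt_asym (h : IV r e) {u v : ℕ} (h1 : tt r e u v) (h2 : tt r e v u) : False := by
  rcases h1 with ⟨h1, k1⟩ | ⟨h1, k1⟩ <;> rcases h2 with ⟨h2, k2⟩ | ⟨h2, k2⟩
  · exact h.asym h1 h2
  · exact k1 (h.sy _ _ k2)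
  · exact k2 (h.sy _ _ k1)
  · exact h.asym h1 h2

theorem IV.tt_total (h : IV r e) {u v : ℕ} (hne : u ≠ v) : tt r e u v ∨ tt r e v u := by
  by_cases he : e u v
  · rcases h.o.total u v hne with h1 | h1
    · exact Or.inr (Or.inr ⟨h1, h.sy _ _ he⟩)
    · exact Or.inl (Or.inr ⟨h1, he⟩)
  · rcases h.o.total u v hne with h1 | h1
    · exact Or.inl (Or.inl ⟨h1, he⟩)
    · exact Or.inr (Or.inl ⟨h1, fun k => he (h.sy _ _ k)⟩)

/-- forward arcs are in paths of length two -/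
theorem IV.mid_fwd (h : IV r e) {u v : ℕ} (h1 : r u v) : mid (tt r e) u v := by
  by_contra hcon
  have key : ∀ z, r u z → r z v → e u z ∨ e v z := by
    intro z h2 h3
    by_contra h4
    push Not at h4
    exact hcon ⟨z, Or.inl ⟨h2, h4.1⟩, Or.inl ⟨h3, fun k => h4.2 (h.sy _ _ k)⟩⟩
  obtain ⟨a, a1, a2⟩ := h.dn u v h1
  obtain ⟨b, b1, b2⟩ := h.dn u a a1
  obtain ⟨c, c1, c2⟩ := h.dn u b b1
  have hb : r b v := h.o.trans _ _ _ b2 a2
  have hc : r c v := h.o.trans _ _ _ c2 hb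
  have hca : r c a := h.o.trans _ _ _ c2 b2
  have nab : a ≠ b := fun k => h.o.irrefl _ (k ▸ b2 : r b b)
  have nbc : b ≠ c := fun k => h.o.irrefl _ (k ▸ c2 : r c c)
  have nac : a ≠ c := fun k => h.o.irrefl _ (k ▸ hca : r c c)
  rcases key a a1 a2 with p | p <;> rcases key b b1 hb with q | q <;>
    rcases key c c1 hc with s | s
  · exact nab (h.fn _ _ _ p q)
  · exact nab (h.fn _ _ _ p q)
  · exact nac (h.fn _ _ _ p s)
  · exact nbc (h.fn _ _ _ q s)
  · exact nbc (h.fn _ _ _ q s)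
  · exact nac (h.fn _ _ _ p s)
  · exact nab (h.fn _ _ _ p q)
  · exact nab (h.fn _ _ _ p q)

/-- reversed arcs are not -/
theorem IV.mid_bwd (h : IV r e) {u v : ℕ} (h1 : r v u) (h2 : e u v) : ¬ mid (tt r e) u v := by
  rintro ⟨z, h3, h4⟩
  rcases h3 with ⟨h3, -⟩ | ⟨-, h3⟩
  · rcases h4 with ⟨h4, -⟩ | ⟨-, h4⟩
    · exact h.asym (h.o.trans _ _ _ h3 h4) h1
    · have := h.fn _ _ _ (h.sy _ _ h4) (h.sy _ _ h2)
      subst this
      exact h.o.irrefl _ h3
  · have := h.fn _ _ _ h3 h2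
    subst this
    exact h.tt_irr _ h4

theorem IV.em_eq (h : IV r e) (u v : ℕ) : em (tt r e) u v ↔ e u v := by
  constructor
  · rintro (⟨h1 | h1, h2⟩ | ⟨h1 | h1, h2⟩)
    · exact absurd (h.mid_fwd h1.1) h2
    · exact h1.2
    · exact absurd (h.mid_fwd h1.1) h2
    · exact h.sy _ _ h1.2
  · intro he
    have hne : u ≠ v := fun k => h.ir _ (k ▸ he : e v v)
    rcases h.o.total u v hne with h1 | h1
    · exact Or.inr ⟨Or.inr ⟨h1, h.sy _ _ he⟩, h.mid_bwd h1 (h.sy _ _ he)⟩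
    · exact Or.inl ⟨Or.inr ⟨h1, he⟩, h.mid_bwd h1 he⟩

theorem IV.rr_eq (h : IV r e) (u v : ℕ) : rr (tt r e) u v ↔ r u v := by
  constructor
  · rintro (⟨h1 | h1, h2⟩ | ⟨h1 | h1, h2⟩)
    · exact h1.1
    · exact absurd h2 (h.mid_bwd h1.1 h1.2)
    · exact absurd (h.mid_fwd h1.1) h2
    · exact h1.1
  · intro h1
    by_cases he : e u v
    · exact Or.inr ⟨Or.inr ⟨h1, h.sy _ _ he⟩, h.mid_bwd h1 (h.sy _ _ he)⟩
    · exact Or.inl ⟨Or.inl ⟨h1, he⟩, h.mid_fwd h1⟩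

/-! ### the class of tournaments -/

/-- the class -/
def WT (S : LG.Structure ℕ) : Prop :=
  IV (rr (gd S)) (em (gd S)) ∧ ∀ u v, gd S u v ↔ tt (rr (gd S)) (em (gd S)) u v

theorem fb_gd' : FB (L' := LG) gd := fun i j => fd_gd i j

theorem fb_mid : FB (L' := LG) (fun S => mid (gd S)) := fun i j =>
  FD.ex1 <| (fb_gd' (Sum.inl i) x0).and (fb_gd' x0 (Sum.inl j))

theorem fb_rr : FB (L' := LG) (fun S => rr (gd S)) := fun i j =>
  ((fb_gd' i j).and (fb_mid i j)).or ((fb_gd' j i).and (fb_mid j i).not)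

theorem fb_em : FB (L' := LG) (fun S => em (gd S)) := fun i j =>
  ((fb_gd' i j).and (fb_mid i j).not).or ((fb_gd' j i).and (fb_mid j i).not)

theorem ax_WT : Ax WT := by
  have h1 := ax_slo fb_rr
  have h2 : Ax (L := LG) (fun S => ∀ u v, rr (gd S) u v → ∃ w, rr (gd S) u w ∧ rr (gd S) w v) :=
    Ax.of <| FD.all1 <| FD.all1 <| (fb_rr x1 x0).imp <| FD.ex1 <| (fb_rr x2 x0).and (fb_rr x0 x1)
  have h3 : Ax (L := LG) (fun S => ∀ u, ∃ w, rr (gd S) u w) :=
    Ax.of <| FD.all1 <| FD.ex1 <| fb_rr x1 x0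
  have h4 : Ax (L := LG) (fun S => ∀ u, ∃ w, rr (gd S) w u) :=
    Ax.of <| FD.all1 <| FD.ex1 <| fb_rr x0 x1
  have h5 : Ax (L := LG) (fun S => ∀ u v, em (gd S) u v → em (gd S) v u) :=
    Ax.of <| FD.all1 <| FD.all1 <| (fb_em x1 x0).imp (fb_em x0 x1)
  have h6 : Ax (L := LG) (fun S => ∀ u, ¬ em (gd S) u u) := Ax.of <| FD.all1 <| (fb_em x0 x0).not
  have h7 : Ax (L := LG) (fun S => ∀ u v w, em (gd S) u v → em (gd S) u w → v = w) :=
    Ax.of <| FD.all1 <| FD.all1 <| FD.all1 <| (fb_em x2 x1).imp <| (fb_em x2 x0).imp <|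
      FD.eq x1 x0
  have h8 : Ax (L := LG) (fun S => ∀ u, ∃ v, em (gd S) u v) :=
    Ax.of <| FD.all1 <| FD.ex1 <| fb_em x1 x0
  have h9 : Ax (L := LG) (fun S => ∀ u u' v v', em (gd S) u u' → em (gd S) v v' →
      rr (gd S) u u' → rr (gd S) v v' → rr (gd S) u v') :=
    Ax.of <| FD.all1 <| FD.all1 <| FD.all1 <| FD.all1 <| (fb_em x3 x2).imp <|
      (fb_em x1 x0).imp <| (fb_rr x3 x2).imp <| (fb_rr x1 x0).imp (fb_rr x3 x0)
  have h10 : Ax (L := LG) (fun S => ∀ u v, gd S u v ↔ tt (rr (gd S)) (em (gd S)) u v) :=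
    Ax.of <| FD.all1 <| FD.all1 <| (fb_gd' x1 x0).iff <|
      ((fb_rr x1 x0).and (fb_em x1 x0).not).or ((fb_rr x0 x1).and (fb_em x1 x0))
  refine (h1.and <| h2.and <| h3.and <| h4.and <| h5.and <| h6.and <|
    h7.and <| h8.and <| h9.and h10).congr fun S => ?_
  exact ⟨fun ⟨a, b, c, d, e, f, g, h, i, j⟩ => ⟨⟨a, b, c, d, e, f, g, h, i⟩, j⟩,
    fun ⟨⟨a, b, c, d, e, f, g, h, i⟩, j⟩ => ⟨a, b, c, d, e, f, g, h, i, j⟩⟩

/-- the interpretation -/
def IT : Itq L2 LG where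
  W := WT
  axW := ax_WT
  dom := fun _ _ => True
  eqv := fun _ u v => u = v
  rel := fun {n} Q => match n, Q with
    | _, R2.fst => fun S u => rr (gd S) (u 0) (u 1)
    | _, R2.snd => fun S u => em (gd S) (u 0) (u 1)
  fdom := FD.const True
  feqv := FD.eq 0 1
  frel := fun {n} Q => match n, Q with
    | _, R2.fst => (fb_rr 0 1).mono fun _ _ => trivial
    | _, R2.snd => (fb_em 0 1).mono fun _ _ => trivial
  refl := fun _ _ _ _ => rfl
  symm := fun _ _ _ _ _ _ h => h.symm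
  trans := fun _ _ _ _ _ _ _ _ h h' => h.trans h'
  cong := fun S _ n Q => match n, Q with
    | _, R2.fst => fun u v _ _ h h1 => by
      have e : u = v := funext h
      rw [← e]
      exact h1
    | _, R2.snd => fun u v _ _ h h1 => by
      have e : u = v := funext h
      rw [← e]
      exact h1
  inf := fun _ _ N => ⟨N, le_rfl, trivial, fun _ h3 _ h4 => absurd h4 (Nat.ne_of_lt h3)⟩

/-- the decoded structure -/
theorem D_iso {S : LG.Structure ℕ} (h : WT S) (M : L2.Structure ℕ)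
    (h1 : ∀ u v, rr (gd S) u v ↔ g1 M u v) (h2 : ∀ u v, em (gd S) u v ↔ g2 M u v) :
    SIso (IT.D S) M := by
  refine Itq_D_iso IT (S := S) h M (fun u => u) (fun n => ⟨n, trivial, rfl⟩)
    (fun u v _ _ => Iff.rfl) fun {n} Q u _ => ?_
  cases Q with
  | fst =>
    show rr (gd S) (u 0) (u 1) ↔ @Structure.RelMap L2 ℕ M 2 R2.fst _
    rw [h1, ← two_eta fun i => u i]
    exact Iff.rfl
  | snd =>
    show em (gd S) (u 0) (u 1) ↔ @Structure.RelMap L2 ℕ M 2 R2.snd _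
    rw [h2, ← two_eta fun i => u i]
    exact Iff.rfl

theorem up_T (S S' : LG.Structure ℕ) (h : WT S) (h' : WT S')
    (hi : SIso (IT.D S) (IT.D S')) : SIso S S' := by
  have k1 := D_iso h (ofq (rr (gd S)) (em (gd S))) (fun _ _ => Iff.rfl) (fun _ _ => Iff.rfl)
  have k2 := D_iso h' (ofq (rr (gd S')) (em (gd S'))) (fun _ _ => Iff.rfl) (fun _ _ => Iff.rfl)
  obtain ⟨f⟩ := (k1.symm.trans hi).trans k2
  let σ : Equiv.Perm ℕ := @FirstOrder.Language.Equiv.toEquiv L2 ℕ ℕ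
    (ofq (rr (gd S)) (em (gd S))) (ofq (rr (gd S')) (em (gd S'))) f
  have e1 : ∀ u v, rr (gd S') (σ u) (σ v) ↔ rr (gd S) u v := fun u v =>
    iso_rel f R2.fst ![u, v]
  have e2 : ∀ u v, em (gd S') (σ u) (σ v) ↔ em (gd S) u v := fun u v =>
    iso_rel f R2.snd ![u, v]
  refine siso_gd σ fun u v => ?_
  rw [h.2, h'.2]
  unfold tt
  rw [e1, e1, e2]

theorem ex_T (M : L2.Structure ℕ) (h : IW M) : ∃ S, WT S ∧ SIso (IT.D S) M := by
  classical
  rw [iw_iff] at h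
  let S : LG.Structure ℕ := ofb (fun u v => decide (tt (g1 M) (g2 M) u v))
  have hg : gd S = tt (g1 M) (g2 M) := by
    funext u v
    refine propext ?_
    rw [gd_ofb, decide_eq_true_iff]
  have hr : rr (gd S) = g1 M := by
    funext u v
    rw [hg]
    exact propext (h.rr_eq u v)
  have he : em (gd S) = g2 M := by
    funext u v
    rw [hg]
    exact propext (h.em_eq u v)
  have hW : WT S := by
    refine ⟨?_, fun u v => ?_⟩
    · rw [hr, he]
      exact h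
    · rw [hr, he, hg]
  exact ⟨S, hW, D_iso hW M (fun u v => by rw [hr]) (fun u v => by rw [he])⟩

/-! ### the finite subtournaments -/

theorem IV.iw (h : IV r e) : IW (ofq r e) := iw_iff.2 h

theorem IV.tour (h : IV r e) : (∀ u, ¬ tt r e u u) ∧ (∀ u v, u ≠ v → tt r e u v ∨ tt r e v u) ∧
    ∀ u v, tt r e u v → ¬ tt r e v u :=
  ⟨h.tt_irr, fun _ _ huv => h.tt_total huv, fun _ _ h1 h2 => h.tt_asym h1 h2⟩

/-- the smaller elements of the pairs -/
def low (r e : ℕ → ℕ → Prop) (u : ℕ) : Prop := ∃ v, e u v ∧ r u v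

theorem IV.same (h : IV r e) {u v : ℕ} (huv : low r e u ↔ low r e v) : tt r e u v ↔ r u v := by
  have hne : ¬ e u v := by
    intro he
    have h1 : low r e u ↔ ¬ low r e v := h.iw.flip he
    tauto
  constructor
  · rintro (⟨h1, -⟩ | ⟨-, h1⟩)
    · exact h1
    · exact absurd h1 hne
  · exact fun h1 => Or.inl ⟨h1, hne⟩

theorem IV.cross (h : IV r e) {u v : ℕ} (hu : low r e u) (hv : ¬ low r e v)
    (huv : tt r e v u) : e u v := by
  have h1 : r u v := h.iw.lt hu hv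
  rcases huv with ⟨h2, -⟩ | ⟨-, h2⟩
  · exact (h.asym h1 h2).elim
  · exact h.sy _ _ h2

theorem IV.matched (h : IV r e) {V : Type} (T : V → V → Prop) (f : V → ℕ)
    (hf : Function.Injective f) (hT : ∀ i j, tt r e (f i) (f j) ↔ T i j) :
    ∃ I : V → Prop,
      (∀ i j k, (I i ↔ I j) → (I j ↔ I k) → T i j → T j k → T i k) ∧
      (∀ i j k, I i → ¬ I j → ¬ I k → T j i → T k i → j = k) ∧
      ∀ i j k, I i → I j → ¬ I k → T k i → T k j → i = j := by
  refine ⟨fun i => low r e (f i), fun i j k h1 h2 h3 h4 => ?_, fun i j k h1 h2 h3 h4 h5 => ?_,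
    fun i j k h1 h2 h3 h4 h5 => ?_⟩
  · rw [← hT, h.same h1] at h3
    rw [← hT, h.same h2] at h4
    rw [← hT, h.same (h1.trans h2)]
    exact h.o.trans _ _ _ h3 h4
  · rw [← hT] at h4 h5
    exact hf (h.fn _ _ _ (h.cross h1 h2 h4) (h.cross h1 h3 h5))
  · rw [← hT] at h4 h5
    exact hf (h.fn _ _ _ (h.sy _ _ (h.cross h1 h3 h4)) (h.sy _ _ (h.cross h2 h3 h5)))

/-- all theories from the complete theories of the tournaments of the class -/
theorem full_T (hV : ∀ T : LG.Theory, T.IsComplete → (∀ S : LG.Structure ℕ,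
      @Theory.Model LG ℕ S T → WT S) → VaughtF LG T)
    (L : FirstOrder.Language.{0, 0}) (hL : Countable L.Symbols) (T : L.Theory) :
    VaughtF L T := by
  have := countable_L2
  refine full_inv (fun T1 hT1 hS1 => (vaughtF_iff _ _).2 ?_) L hL T
  refine IT.transfer (fun S S' => up_T S S') T1 (fun M hM => ex_T M (hS1 M hM)) fun T2 hT2 => ?_
  exact compl hV T2 fun S hS => (hT2 S hS).1

end Pool.Agent.H129.VT
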