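import Pool.Agent.Results.MP_5df2c5_lc.PermutationAndIntervalGraphs
import Pool.Agent.H129.VT.Four
import Pool.Agent.H129.VT.Neg

set_option autoImplicit false

/-! The dichotomy for tournaments without a tournament with at most four vertices. -/

namespace Pool.Agent.H129.VT

open FirstOrder FirstOrder.Language MeasureTheory
open Pool.Agent.W889.FO Pool.Agent.W889.VC
open Pool.Agent.W889.FO.StE (LG gd fd_gd siso_gd)
open Pool.Agent.TH686.FO Pool.Agent.TH686.DO
open Pool.Agent.Results.MP_5df2c5_lc.PermutationAndIntervalGraphs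

/-- the prime quotients -/
theorem quot_loc {n : ℕ} (hn : n ≤ 4) {T : Fin n → Fin n → Bool} (hT : FT T)
    {E : ℕ → ℕ → Bool} (h : Tour E) (hh : ¬ Has T E) : GeometricPrimeQuotients E := by
  intro X e h1 _ h3 _ h5
  have hinj : Function.Injective e := by
    intro a b hab
    by_contra hne
    exact Set.disjoint_left.1 (h3 a b hne) (h1 a) (hab ▸ h1 b)
  have hq : ∀ a b, a ≠ b → quotient E e a b = E (e a) (e b) := fun a b hab => if_neg hab
  have hQ : Tour (quotient E e) := by
    refine ⟨fun a => if_pos rfl, fun a b hab => ?_, fun a b k1 k2 => ?_⟩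
    · rw [hq a b hab, hq b a hab.symm]
      exact h.tot _ _ fun k => hab (hinj k)
    · have hab : a ≠ b := by
        rintro rfl
        have : quotient E e a a = false := if_pos rfl
        rw [this] at k1
        exact absurd k1 (by decide)
      rw [hq a b hab] at k1
      rw [hq b a hab.symm] at k2
      exact h.asy _ _ k1 k2
  have hl := loc_le hn hT hQ h5 fun ⟨f, hf, hf'⟩ => hh ⟨fun i => e (f i),
    fun i j hij => hf (hinj hij), fun i j => by
      by_cases hij : i = j
      · subst hij
        rw [h.irr, hT.irr]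
      · rw [← hf' i j, hq _ _ fun k => hij (hf k)]⟩
  refine Or.inr (Or.inr ⟨hQ.irr, fun a b => ?_, fun a b k1 k2 => hQ.asy a b k1 k2, hl.out, hl.inn⟩)
  by_cases hab : a = b
  · exact Or.inl hab
  · exact Or.inr (hQ.tot a b hab)

/-- the dichotomy for Borel classes -/
theorem borel_four {n : ℕ} (hn : n ≤ 4) {T : Fin n → Fin n → Bool} (hT : FT T)
    (B : Set Structures) (hB : MeasurableSet B) (hE : ∀ x ∈ B, Tour x.1 ∧ ¬ Has T x.1)
    (hi : ∀ x ∈ B, ∀ (y : Structures) (σ : Equiv.Perm ℕ), IsIso σ x y → y ∈ B) :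
    (∃ f : ℕ → Structures, ∀ x ∈ B, ∃ (n : ℕ) (σ : Equiv.Perm ℕ), IsIso σ (f n) x) ∨
    (∃ c : (ℕ → Bool) → Structures, Continuous c ∧ (∀ s, c s ∈ B) ∧
      ∀ s t, (∃ σ : Equiv.Perm ℕ, IsIso σ (c s) (c t)) → s = t) :=
  result.1 B hB (fun x hx => quot_loc hn hT (hE x hx).1 (hE x hx).2) hi

/-- the dichotomy for first-order theories from the one for Borel classes -/
theorem theory_of_borel (K : (ℕ → ℕ → Bool) → Prop)
    (hK : ∀ B : Set Structures, MeasurableSet B → (∀ x ∈ B, K x.1) →
      (∀ x ∈ B, ∀ (y : Structures) (σ : Equiv.Perm ℕ), IsIso σ x y → y ∈ B) →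
      (∃ f : ℕ → Structures, ∀ x ∈ B, ∃ (n : ℕ) (σ : Equiv.Perm ℕ), IsIso σ (f n) x) ∨
      (∃ c : (ℕ → Bool) → Structures, Continuous c ∧ (∀ s, c s ∈ B) ∧
        ∀ s t, (∃ σ : Equiv.Perm ℕ, IsIso σ (c s) (c t)) → s = t))
    (Th : LG.Theory) (hTh : ∀ S : LG.Structure ℕ, @Theory.Model LG ℕ S Th → K (bs S)) :
    Vaught LG Th := by
  have hiso : ∀ {x y : Structures} {σ : Equiv.Perm ℕ}, IsIso σ x y → SIso (ofb x.1) (ofb y.1) := by
    intro x y σ h
    refine siso_gd σ fun u v => ?_
    rw [gd_ofb, gd_ofb, h.1]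
  have hbs : ∀ S : LG.Structure ℕ, SIso S (ofb (bs S)) := fun S =>
    siso_gd (Equiv.refl ℕ) fun u v => by
      rw [gd_ofb, bs_iff]
      exact Iff.rfl
  let B : Set Structures := {x | @Theory.Model LG ℕ (ofb x.1) Th ∧ ∀ i m, x.2 i m = false}
  have hrel : ∀ (n : ℕ) (R : LG.Relations n) (a : Fin n → ℕ),
      BP (fun x : Structures => @Structure.RelMap LG ℕ (ofb x.1) n R a) := by
    intro n R a
    cases R with
    | adj =>
      show MeasurableSet {x : Structures | x.1 (a 0) (a 1) = true}
      have hc : Measurable fun x : Structures => x.1 (a 0) (a 1) := by fun_prop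
      exact hc (measurableSet_singleton true)
  have hBm : MeasurableSet B := by
    have h1 : BP (fun x : Structures => @Theory.Model LG ℕ (ofb x.1) Th) := by
      have : Countable (Σ n, LG.Relations n) := by
        have hh : Countable (Σ n, FirstOrder.Language.graphRel n) := by
          refine Function.Surjective.countable (f := fun _ : Unit =>
            (⟨2, FirstOrder.Language.graphRel.adj⟩ : Σ n, FirstOrder.Language.graphRel n)) ?_
          rintro ⟨n, Q⟩
          cases Q
          exact ⟨(), rfl⟩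
        exact hh
      have hsc : Countable LG.Sentence := countable_sentence
      have h2 : BP (fun x : Structures => ∀ φ : Th, @Sentence.Realize LG ℕ (ofb x.1) φ.1) :=
        BP.all fun φ => bp_sentence hrel φ.1
      exact h2.congr fun x => ⟨fun k => ax_iff.2 fun φ hφ => k ⟨φ, hφ⟩,
        fun k φ => ax_iff.1 k φ.1 φ.2⟩
    have h3 : BP (fun x : Structures => ∀ i m, x.2 i m = false) := by
      refine BP.all fun i => BP.all fun m => ?_
      have hc : Measurable fun x : Structures => x.2 i m := by fun_prop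
      exact hc (measurableSet_singleton false)
    exact h1.and h3
  have hBi : ∀ x ∈ B, ∀ (y : Structures) (σ : Equiv.Perm ℕ), IsIso σ x y → y ∈ B := by
    intro x hx y σ h
    refine ⟨(hiso h).model hx.1, fun i m => ?_⟩
    have := h.2 i (σ.symm m)
    rw [σ.apply_symm_apply] at this
    rw [this]
    exact hx.2 _ _
  have hbo : ∀ y : BinStr, bs (ofb y) = y := bs_ofb
  rcases hK B hBm (fun x hx => by
    have := hTh _ hx.1
    rwa [hbo] at this) hBi with ⟨f, hf⟩ | ⟨c, hc1, hc2, hc3⟩
  · left
    refine ⟨fun n => ofb (f n).1, fun S hS => ?_⟩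
    obtain ⟨n, σ, hσ⟩ := hf (bs S, fun _ _ => false) ⟨(hbs S).model hS, fun _ _ => rfl⟩
    exact ⟨n, (hbs S).trans (hiso hσ).symm⟩
  · right
    refine ⟨fun s => ofb (c s).1, fun s => (hc2 s).1, fun s t ⟨g⟩ => ?_, fun n R a => ?_⟩
    · refine hc3 s t ?_
      let σ : Equiv.Perm ℕ := @FirstOrder.Language.Equiv.toEquiv LG ℕ ℕ
        (ofb (c s).1) (ofb (c t).1) g
      refine ⟨σ, fun u v => ?_, fun i m => ?_⟩
      · have h1 := iso_rel g FirstOrder.Language.graphRel.adj ![u, v]
        have h2 : (c t).1 (σ u) (σ v) = true ↔ (c s).1 u v = true := h1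
        rw [Bool.eq_iff_iff, h2]
      · rw [(hc2 t).2, (hc2 s).2]
    · cases R with
      | adj =>
        show IsClopen {s : ℕ → Bool | (c s).1 (a 0) (a 1) = true}
        have hc : Continuous fun s : ℕ → Bool => (c s).1 (a 0) (a 1) := by fun_prop
        exact (isClopen_discrete {true}).preimage hc

end Pool.Agent.H129.VT
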