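import Pool.Agent.R617.VT.Sub

set_option autoImplicit false

/-! Split tournaments and pairs of linear orders. -/

namespace Pool.Agent.H129.VT.SM

open Pool.Agent.W889.VC Pool.Agent.W889.SD

section gen

variable {S S' : Type}

/-- the arcs which are not in a transitive triangle as the arc from the first to the last vertex -/
def MM (r : S → S → Prop) (u v : S) : Prop := r u v ∧ ∀ w, ¬ (r u w ∧ r w v)

def Lo (r : S → S → Prop) (v : S) : Prop := ∃ u, MM r u v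

def Up (r : S → S → Prop) (u : S) : Prop := ∃ v, MM r u v

def A2 (r : S → S → Prop) (u v : S) : Prop := ∃ u' v', MM r u' u ∧ MM r v' v ∧ r u' v'

structure SM (r : S → S → Prop) : Prop where
  irr : ∀ a, ¬ r a a
  tot : ∀ a b, a ≠ b → r a b ∨ r b a
  asy : ∀ a b, r a b → ¬ r b a
  cov : ∀ v, Lo r v ∨ Up r v
  dis : ∀ v, Lo r v → ¬ Up r v
  fn : ∀ u v v', MM r u v → MM r u v' → v = v'
  inj : ∀ u u' v, MM r u v → MM r u' v → u = u'
  lo : ∀ u v w, Lo r u → Lo r v → Lo r w → r u v → r v w → r u w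
  up : ∀ u v w, Up r u → Up r v → Up r w → r u v → r v w → r u w
  cr : ∀ u v, Lo r u → Up r v → MM r v u ∨ r u v

theorem MM_map {r : S → S → Prop} {r' : S' → S' → Prop} (e : S ≃ S')
    (h : ∀ u v, r u v ↔ r' (e u) (e v)) (u v : S) : MM r u v ↔ MM r' (e u) (e v) := by
  unfold MM
  rw [h]
  refine and_congr Iff.rfl ⟨fun k w => ?_, fun k w => ?_⟩
  · have := k (e.symm w)
    rwa [h, h, e.apply_symm_apply] at this
  · rw [h, h]
    exact k (e w)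

theorem Lo_map {r : S → S → Prop} {r' : S' → S' → Prop} (e : S ≃ S')
    (h : ∀ u v, r u v ↔ r' (e u) (e v)) (u : S) : Lo r u ↔ Lo r' (e u) := by
  constructor
  · rintro ⟨w, hw⟩
    exact ⟨e w, (MM_map e h _ _).1 hw⟩
  · rintro ⟨w, hw⟩
    refine ⟨e.symm w, (MM_map e h _ _).2 ?_⟩
    rwa [e.apply_symm_apply]

theorem Up_map {r : S → S → Prop} {r' : S' → S' → Prop} (e : S ≃ S')
    (h : ∀ u v, r u v ↔ r' (e u) (e v)) (u : S) : Up r u ↔ Up r' (e u) := by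
  constructor
  · rintro ⟨w, hw⟩
    exact ⟨e w, (MM_map e h _ _).1 hw⟩
  · rintro ⟨w, hw⟩
    refine ⟨e.symm w, (MM_map e h _ _).2 ?_⟩
    rwa [e.apply_symm_apply]

theorem A2_map {r : S → S → Prop} {r' : S' → S' → Prop} (e : S ≃ S')
    (h : ∀ u v, r u v ↔ r' (e u) (e v)) (u v : S) : A2 r u v ↔ A2 r' (e u) (e v) := by
  constructor
  · rintro ⟨a, b, h1, h2, h3⟩
    exact ⟨e a, e b, (MM_map e h _ _).1 h1, (MM_map e h _ _).1 h2, (h _ _).1 h3⟩
  · rintro ⟨a, b, h1, h2, h3⟩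
    refine ⟨e.symm a, e.symm b, (MM_map e h _ _).2 ?_, (MM_map e h _ _).2 ?_, (h _ _).2 ?_⟩
    · rwa [e.apply_symm_apply]
    · rwa [e.apply_symm_apply]
    · rwa [e.apply_symm_apply, e.apply_symm_apply]

theorem SM.map {r : S → S → Prop} {r' : S' → S' → Prop} (e : S ≃ S')
    (h : ∀ u v, r u v ↔ r' (e u) (e v)) (hr : SM r') : SM r where
  irr a k := hr.irr _ ((h _ _).1 k)
  tot a b hab := (hr.tot (e a) (e b) fun k => hab (e.injective k)).imp (h _ _).2 (h _ _).2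
  asy a b k k' := hr.asy _ _ ((h _ _).1 k) ((h _ _).1 k')
  cov v := (hr.cov (e v)).imp (Lo_map e h v).2 (Up_map e h v).2
  dis v k k' := hr.dis _ ((Lo_map e h v).1 k) ((Up_map e h v).1 k')
  fn u v v' k k' := e.injective (hr.fn _ _ _ ((MM_map e h _ _).1 k) ((MM_map e h _ _).1 k'))
  inj u u' v k k' := e.injective (hr.inj _ _ _ ((MM_map e h _ _).1 k) ((MM_map e h _ _).1 k'))
  lo u v w h1 h2 h3 h4 h5 := (h _ _).2 (hr.lo _ _ _ ((Lo_map e h _).1 h1) ((Lo_map e h _).1 h2)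
    ((Lo_map e h _).1 h3) ((h _ _).1 h4) ((h _ _).1 h5))
  up u v w h1 h2 h3 h4 h5 := (h _ _).2 (hr.up _ _ _ ((Up_map e h _).1 h1) ((Up_map e h _).1 h2)
    ((Up_map e h _).1 h3) ((h _ _).1 h4) ((h _ _).1 h5))
  cr u v h1 h2 := (hr.cr _ _ ((Lo_map e h _).1 h1) ((Up_map e h _).1 h2)).imp
    (MM_map e h _ _).2 (h _ _).2

theorem SM.cross {r : S → S → Prop} (h : SM r) {u v v0 : S} (hu : Lo r u) (hv : MM r v v0) :
    r u v ↔ u ≠ v0 := by
  constructor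
  · rintro h1 rfl
    exact h.asy _ _ h1 hv.1
  · intro h1
    rcases h.cr u v hu ⟨v0, hv⟩ with h2 | h2
    · exact absurd (h.fn _ _ _ h2 hv) h1
    · exact h2

theorem SM.cross' {r : S → S → Prop} (h : SM r) {u v v0 : S} (hu : Lo r u) (hv : MM r v v0) :
    r v u ↔ u = v0 := by
  have hne : u ≠ v := by
    rintro rfl
    exact h.dis _ hu ⟨v0, hv⟩
  constructor
  · intro h1
    by_contra h2
    exact h.asy _ _ h1 ((h.cross hu hv).2 h2)
  · rintro rfl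
    exact hv.1

theorem SM.glue {r : S → S → Prop} {r' : S' → S' → Prop} (h : SM r) (h' : SM r')
    (π : {u // Lo r u} ≃ {u // Lo r' u})
    (h1 : ∀ u v : {u // Lo r u}, r u v ↔ r' (π u) (π v))
    (h2 : ∀ u v : {u // Lo r u}, A2 r u v ↔ A2 r' (π u) (π v)) :
    ∃ e : S ≃ S', ∀ u v, r u v ↔ r' (e u) (e v) := by
  let R : S → S' → Prop := fun u t => (∃ k : Lo r u, t = π ⟨u, k⟩) ∨
    ∃ v, ∃ k : Lo r v, MM r u v ∧ MM r' t (π ⟨v, k⟩)
  have e1 : ∀ u, ∃ t, R u t := by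
    intro u
    rcases h.cov u with k | ⟨v, k⟩
    · exact ⟨_, Or.inl ⟨k, rfl⟩⟩
    · obtain ⟨t, ht⟩ := (π ⟨v, ⟨u, k⟩⟩).2
      exact ⟨t, Or.inr ⟨v, ⟨u, k⟩, k, ht⟩⟩
  have e2 : ∀ t, ∃ u, R u t := by
    intro t
    rcases h'.cov t with k | ⟨s, k⟩
    · refine ⟨π.symm ⟨t, k⟩, Or.inl ⟨(π.symm ⟨t, k⟩).2, ?_⟩⟩
      show t = (π (π.symm ⟨t, k⟩) : S')
      rw [π.apply_symm_apply]
    · obtain ⟨u, hu⟩ := (π.symm ⟨s, ⟨t, k⟩⟩).2
      refine ⟨u, Or.inr ⟨_, (π.symm ⟨s, ⟨t, k⟩⟩).2, hu, ?_⟩⟩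
      show MM r' t (π (π.symm ⟨s, ⟨t, k⟩⟩) : S')
      rw [π.apply_symm_apply]
      exact k
  have e3 : ∀ u t t', R u t → R u t' → t = t' := by
    rintro u t t' (⟨k, rfl⟩ | ⟨v, k, k1, k2⟩) (⟨l, rfl⟩ | ⟨w, l, l1, l2⟩)
    · rfl
    · exact absurd ⟨w, l1⟩ (h.dis _ k)
    · exact absurd ⟨v, k1⟩ (h.dis _ l)
    · obtain rfl := h.fn _ _ _ k1 l1
      exact h'.inj _ _ _ k2 l2
  have e4 : ∀ u u' t, R u t → R u' t → u = u' := by
    rintro u u' t (⟨k, rfl⟩ | ⟨v, k, k1, k2⟩) (⟨l, hl⟩ | ⟨w, l, l1, l2⟩)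
    · exact congrArg Subtype.val (π.injective (Subtype.ext hl))
    · exact absurd ⟨_, l2⟩ (h'.dis _ (π ⟨u, k⟩).2)
    · subst hl
      exact absurd ⟨_, k2⟩ (h'.dis _ (π ⟨u', l⟩).2)
    · have h3 := π.injective (Subtype.ext (h'.fn _ _ _ k2 l2))
      obtain rfl : v = w := congrArg Subtype.val h3
      exact h.inj _ _ _ k1 l1
  obtain ⟨e, he⟩ := equiv_of_rel R e1 e2 e3 e4
  refine ⟨e, fun u v => ?_⟩
  have key : ∀ (u v v0 : S) (k : Lo r u) (l : Lo r v0) (t : S'), MM r v v0 →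
      MM r' t (π ⟨v0, l⟩) →
      ((r u v ↔ r' (π ⟨u, k⟩) t) ∧ (r v u ↔ r' t (π ⟨u, k⟩))) := by
    intro u v v0 k l t k1 k2
    have h3 : u = v0 ↔ ((π ⟨u, k⟩ : {u // Lo r' u}) : S') = π ⟨v0, l⟩ := by
      constructor
      · rintro rfl
        rfl
      · intro h4
        exact congrArg Subtype.val (π.injective (Subtype.ext h4))
    constructor
    · rw [h.cross k k1, h'.cross (π ⟨u, k⟩).2 k2]
      exact not_congr h3
    · rw [h.cross' k k1, h'.cross' (π ⟨u, k⟩).2 k2]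
      exact h3
  rcases he u with ⟨k, hk⟩ | ⟨u0, k, k1, k2⟩
  · rcases he v with ⟨l, hl⟩ | ⟨v0, l, l1, l2⟩
    · rw [hk, hl]
      exact h1 ⟨u, k⟩ ⟨v, l⟩
    · rw [hk]
      exact (key u v v0 k l _ l1 l2).1
  · rcases he v with ⟨l, hl⟩ | ⟨v0, l, l1, l2⟩
    · rw [hl]
      exact (key v u u0 l k _ k1 k2).2
    · have h3 : r u v ↔ A2 r u0 v0 := by
        constructor
        · exact fun h4 => ⟨u, v, k1, l1, h4⟩
        · rintro ⟨a, b, m1, m2, m3⟩
          rwa [h.inj _ _ _ k1 m1, h.inj _ _ _ l1 m2]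
      have h4 : r' (e u) (e v) ↔ A2 r' (π ⟨u0, k⟩) (π ⟨v0, l⟩) := by
        constructor
        · exact fun h4 => ⟨_, _, k2, l2, h4⟩
        · rintro ⟨a, b, m1, m2, m3⟩
          rwa [h'.inj _ _ _ k2 m1, h'.inj _ _ _ l2 m2]
      rw [h3, h4]
      exact h2 ⟨u0, k⟩ ⟨v0, l⟩

theorem SM.inf {r : ℕ → ℕ → Prop} (h : SM r) (N : ℕ) : ∃ u, N ≤ u ∧ Lo r u := by
  classical
  by_contra hcon
  push Not at hcon
  have h1 : {v | Lo r v}.Finite := (Set.finite_lt_nat N).subset fun v hv => by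
    by_contra h2
    exact hcon v (not_lt.1 h2) hv
  have hg : ∀ u, ∃ v, Up r u → MM r u v := fun u => by
    by_cases hu : Up r u
    · exact ⟨hu.choose, fun _ => hu.choose_spec⟩
    · exact ⟨0, fun k => absurd k hu⟩
  choose g hg using hg
  have h2 : {u | Up r u}.Finite := by
    refine Set.Finite.of_injOn (f := g) (t := {v | Lo r v}) (fun u hu => ⟨u, hg u hu⟩) ?_ h1
    intro u hu u' hu' hgu
    have h3 := hg u' hu'
    rw [← hgu] at h3
    exact h.inj _ _ _ (hg u hu) h3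
  have h3 : (Set.univ : Set ℕ) ⊆ {v | Lo r v} ∪ {u | Up r u} := fun v _ => h.cov v
  exact Set.infinite_univ ((h1.union h2).subset h3)

/-! ### the tournament of two relations -/

def TR (x1 x2 : ℕ → ℕ → Prop) : ℕ × Bool → ℕ × Bool → Prop
  | (m, false), (n, false) => x1 m n
  | (m, true), (n, true) => x2 m n
  | (m, false), (n, true) => m ≠ n
  | (m, true), (n, false) => m = n

variable {x1 x2 : ℕ → ℕ → Prop}

theorem MM_TR (h1 : SLO x1) (h2 : SLO x2) (hm : ∀ m, ∃ k, x1 m k) (p q : ℕ × Bool) :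
    MM (TR x1 x2) p q ↔ p.2 = true ∧ q.2 = false ∧ p.1 = q.1 := by
  obtain ⟨m, a⟩ := p
  obtain ⟨n, b⟩ := q
  cases a <;> cases b
  · simp only [Bool.false_eq_true, false_and, iff_false]
    rintro ⟨k1, k2⟩
    have hmn : m ≠ n := by
      rintro rfl
      exact h1.irrefl _ k1
    exact k2 (n, true) ⟨hmn, rfl⟩
  · simp only [Bool.false_eq_true, false_and, iff_false]
    rintro ⟨k1, k2⟩
    obtain ⟨k, hk⟩ := hm m
    by_cases hkn : k = n
    · obtain ⟨l, hl⟩ := hm k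
      refine k2 (l, false) ⟨h1.trans _ _ _ hk hl, ?_⟩
      rintro rfl
      subst hkn
      exact h1.irrefl _ hl
    · exact k2 (k, false) ⟨hk, hkn⟩
  · simp only [true_and]
    constructor
    · rintro ⟨k1, -⟩
      exact k1
    · rintro rfl
      refine ⟨rfl, ?_⟩
      rintro ⟨k, c⟩ ⟨k1, k2⟩
      cases c
      · obtain rfl : m = k := k1
        exact h1.irrefl _ k2
      · obtain rfl : k = m := k2
        exact h2.irrefl _ k1
  · simp only [Bool.true_eq_false, false_and, and_false, iff_false]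
    rintro ⟨k1, k2⟩
    have hmn : m ≠ n := by
      rintro rfl
      exact h2.irrefl _ k1
    exact k2 (m, false) ⟨rfl, hmn⟩

theorem Lo_TR (h1 : SLO x1) (h2 : SLO x2) (hm : ∀ m, ∃ k, x1 m k) (q : ℕ × Bool) :
    Lo (TR x1 x2) q ↔ q.2 = false := by
  constructor
  · rintro ⟨p, hp⟩
    exact ((MM_TR h1 h2 hm p q).1 hp).2.1
  · intro h
    exact ⟨(q.1, true), (MM_TR h1 h2 hm _ q).2 ⟨rfl, h, rfl⟩⟩

theorem Up_TR (h1 : SLO x1) (h2 : SLO x2) (hm : ∀ m, ∃ k, x1 m k) (q : ℕ × Bool) :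
    Up (TR x1 x2) q ↔ q.2 = true := by
  constructor
  · rintro ⟨p, hp⟩
    exact ((MM_TR h1 h2 hm q p).1 hp).1
  · intro h
    exact ⟨(q.1, false), (MM_TR h1 h2 hm q _).2 ⟨h, rfl, rfl⟩⟩

theorem SM_TR (h1 : SLO x1) (h2 : SLO x2) (hm : ∀ m, ∃ k, x1 m k) : SM (TR x1 x2) where
  irr := by
    rintro ⟨m, a⟩
    cases a
    · exact h1.irrefl m
    · exact h2.irrefl m
  tot := by
    rintro ⟨m, a⟩ ⟨n, b⟩ hne
    cases a <;> cases b
    · exact h1.total _ _ fun h => hne (by rw [h])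
    · by_cases h : m = n
      · exact Or.inr h.symm
      · exact Or.inl h
    · by_cases h : m = n
      · exact Or.inl h
      · exact Or.inr (Ne.symm h)
    · exact h2.total _ _ fun h => hne (by rw [h])
  asy := by
    rintro ⟨m, a⟩ ⟨n, b⟩ k l
    cases a <;> cases b
    · exact h1.irrefl _ (h1.trans _ _ _ k l)
    · exact k (Eq.symm l)
    · exact l (Eq.symm k)
    · exact h2.irrefl _ (h2.trans _ _ _ k l)
  cov := by
    rintro ⟨m, a⟩
    cases a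
    · exact Or.inl ((Lo_TR h1 h2 hm _).2 rfl)
    · exact Or.inr ((Up_TR h1 h2 hm _).2 rfl)
  dis := by
    intro v k l
    have := (Lo_TR h1 h2 hm _).1 k
    rw [(Up_TR h1 h2 hm _).1 l] at this
    exact absurd this (by decide)
  fn := by
    intro u v v' k l
    obtain ⟨k1, k2, k3⟩ := (MM_TR h1 h2 hm _ _).1 k
    obtain ⟨l1, l2, l3⟩ := (MM_TR h1 h2 hm _ _).1 l
    exact Prod.ext (k3.symm.trans l3) (k2.trans l2.symm)
  inj := by
    intro u u' v k l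
    obtain ⟨k1, k2, k3⟩ := (MM_TR h1 h2 hm _ _).1 k
    obtain ⟨l1, l2, l3⟩ := (MM_TR h1 h2 hm _ _).1 l
    exact Prod.ext (k3.trans l3.symm) (k1.trans l1.symm)
  lo := by
    rintro ⟨m, a⟩ ⟨n, b⟩ ⟨l, c⟩ k1 k2 k3 k4 k5
    obtain rfl : a = false := (Lo_TR h1 h2 hm _).1 k1
    obtain rfl : b = false := (Lo_TR h1 h2 hm _).1 k2
    obtain rfl : c = false := (Lo_TR h1 h2 hm _).1 k3
    exact h1.trans _ _ _ k4 k5
  up := by
    rintro ⟨m, a⟩ ⟨n, b⟩ ⟨l, c⟩ k1 k2 k3 k4 k5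
    obtain rfl : a = true := (Up_TR h1 h2 hm _).1 k1
    obtain rfl : b = true := (Up_TR h1 h2 hm _).1 k2
    obtain rfl : c = true := (Up_TR h1 h2 hm _).1 k3
    exact h2.trans _ _ _ k4 k5
  cr := by
    rintro ⟨m, a⟩ ⟨n, b⟩ k1 k2
    obtain rfl : a = false := (Lo_TR h1 h2 hm _).1 k1
    obtain rfl : b = true := (Up_TR h1 h2 hm _).1 k2
    by_cases h : m = n
    · exact Or.inl ((MM_TR h1 h2 hm _ _).2 ⟨rfl, rfl, h.symm⟩)
    · exact Or.inr h

end gen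

end Pool.Agent.H129.VT.SM
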